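import Pool.Agent.H91.SV.Targets
import Pool.Agent.H73.OX.LAS

/-!
# LOWP: the pseudo-density is nonnegative on squares (helper54)
-/

namespace Pool.Agent.H54.SV

open Finset Matrix Pool.Agent.H91.SV

theorem pf_LOWP : S_LOWP := by
  intro p B d h hp S hd f hf
  have hq : Pool.Agent.H73.OX.Low (h + 1) f := by
    obtain ⟨F, hF, hf⟩ := hf
    have h1 : f = ∑ T ∈ univ.filter (fun T : Finset (Fin B) => T.card ≤ h), F T := by
      funext z
      rw [Finset.sum_apply]
      exact hf z
    rw [h1]
    unfold Pool.Agent.H73.OX.Low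
    refine Submodule.sum_mem _ fun T hT => Submodule.subset_span ?_
    have hT' : T.card ≤ h := by simpa using hT
    exact ⟨T, by omega, fun x y hxy => hF T x y hxy⟩
  exact Pool.Agent.H73.OX.las p B d S (h + 1) (by omega) f hq

end Pool.Agent.H54.SV
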